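import Pool.Agent.H68.FSDiag

/-!
# The iterates of the computable FS-jump depend on the notation

There are notations `a`, `b` in Kleene's `O`, both denoting `ω²`, such that `id^{+a}` is not
computably reducible to `id^{+b}`.

Outline of the proof.
* If `E⁺` reduces to a direct sum `⊕_n F_n`, then it reduces to a single summand `F_n`, and `n` is
  the first component of the image of an index of the empty function (`indecomposable`, by the
  recursion theorem).
* Let `wsum F = F ⊕ F⁺ ⊕ F⁺⁺ ⊕ ...`. For the standard notation `b` of `ω²` the relation `id^{+b}`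
  is the direct sum of the relations `E_n = wsum^n id`.
* `E_n⁺` does not reduce to `E_n` (`not_red_jump_iterate_wsum`). This is proved inductively, by
  deciding `E_n` effectively in its second jump.
* The notation `a = 3·5^e` with `φ_e(m) = 2^{c_m}` is built such that, if `φ_m` is a reduction of
  `id^{+a}` to `id^{+b}`, and `n` is the index of the summand into which it maps the `m`-th
  summand of `id^{+a}`, then `E_n` reduces to `id^{+c_m}`: wait until `φ_m(⟨m, e₀⟩)` converges,
  then add `ω·n` to the sequence of notations with limit `c_m`. Then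
  `E_n⁺ ≤ (id^{+c_m})⁺ ≤ E_n`, a contradiction.
-/

namespace Pool.Agent.Results.MP_52a9f3_lc.NotationDependence

open Pool.Agent.H68.FS Ordinal

/-- There are notations `a`, `b` of `ω²` such that `id^{+a}` is not computably reducible to
`id^{+b}`. -/
theorem result : ∃ (a b : ℕ) (F G : ℕ → ℕ → Prop),
    Denotes a (ω ^ (2 : Ordinal.{0})) ∧ Denotes b (ω ^ (2 : Ordinal.{0})) ∧
    (∀ F' : ℕ → ℕ → Prop, Iter Eq a F' ↔ F' = F) ∧
    (∀ G' : ℕ → ℕ → Prop, Iter Eq b G' ↔ G' = G) ∧
    ¬ Red F G := by
  obtain ⟨a, b, F, G, ha, hb, hF, hG, h⟩ := main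
  refine ⟨a, b, F, G, ha, hb, fun F' => ⟨fun h' => h'.unique hF, fun h' => h' ▸ hF⟩,
    fun G' => ⟨fun h' => h'.unique hG, fun h' => h' ▸ hG⟩, h⟩

end Pool.Agent.Results.MP_52a9f3_lc.NotationDependence
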